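import Pool.Agent.Lib.UF43.B

/-! The numerical constants and the final bound. -/

open Finset Filter

namespace Pool.Agent.Lib.UF43

lemma le_exp {x y : ℝ} (hx : 0 ≤ x)
    (h : y ≤ (∑ i ∈ range 12, (x / 4) ^ i / i.factorial) ^ 4) : y ≤ Real.exp x := by
  rw [show x = (4 : ℕ) * (x / 4) by push_cast; ring, Real.exp_nat_mul]
  exact h.trans (pow_le_pow_left₀ (sum_nonneg fun i _ => by positivity)
    (Real.sum_le_exp_of_nonneg (by positivity) 12) 4)

lemma exp_le {x y : ℝ} (hx : 0 ≤ x) (h4 : x ≤ 4)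
    (h : (∑ i ∈ range 12, (x / 4) ^ i / i.factorial +
      (x / 4) ^ 12 * ((12 : ℕ) + 1) / ((12 : ℕ).factorial * (12 : ℕ))) ^ 4 ≤ y) : Real.exp x ≤ y := by
  rw [show x = (4 : ℕ) * (x / 4) by push_cast; ring, Real.exp_nat_mul]
  exact (pow_le_pow_left₀ (Real.exp_pos _).le
    (Real.exp_bound' (by positivity) (by linarith) (by norm_num)) 4).trans h

variable {ι : Type} [Fintype ι] [DecidableEq ι]

lemma light_num {F : Finset (Finset ι)} (hF : UF F) {k : ℕ} (hk : ∀ A ∈ F, A.card = k)
    (h : (k : ℝ) ≤ 0.3132 * Fintype.card ι) :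
    (F.card : ℝ) ≤ 2 * ((Fintype.card ι + 1) ^ 3 * Real.exp (0.34578 * Fintype.card ι + 20)) := by
  have hn : (0 : ℝ) ≤ Fintype.card ι := Nat.cast_nonneg _
  have hkn : k ≤ Fintype.card ι := by exact_mod_cast (show (k : ℝ) ≤ Fintype.card ι by linarith)
  obtain ⟨m, hm⟩ := Nat.exists_eq_add_of_le hkn
  obtain ⟨a, a1, a2, a3⟩ := mode k (u := 0.38 * 11.75) (by norm_num)
  obtain ⟨b, b1, b2, b3⟩ := mode m (u := 0.38 * 11.75⁻¹) (by norm_num)
  have c0 := light hF hk (θ := 0.08) (z := 0.81) (w := 0.38) (L := 11.75) (p := 3.9790039)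
    (q := 2.6759619) (r := 0.2134697) (by norm_num) (by norm_num) (by norm_num) (by norm_num)
    (by norm_num) (by norm_num)
    (le_exp (by norm_num) (by norm_num [sum_range_succ, Nat.factorial]))
    (by
      rw [← div_le_iff₀' (by norm_num)]
      exact le_exp (by norm_num) (by norm_num [sum_range_succ, Nat.factorial]))
    (by
      rw [← div_le_iff₀' (by norm_num)]
      exact le_exp (by norm_num) (by norm_num [sum_range_succ, Nat.factorial]))
    (by norm_num) a b
  have e1 : (1 + 0.38 : ℝ) ≤ Real.exp 0.3220835 :=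
    le_exp (by norm_num) (by norm_num [sum_range_succ, Nat.factorial])
  have e2 : Real.exp 1.6983641 ≤ 1 + 0.38 * 11.75 :=
    exp_le (by norm_num) (by norm_num) (by norm_num [sum_range_succ, Nat.factorial])
  have e3 : Real.exp 0.0318284 ≤ 1 + 0.38 * 11.75⁻¹ :=
    exp_le (by norm_num) (by norm_num) (by norm_num [sum_range_succ, Nat.factorial])
  have e4 : Real.exp 2.4638532 ≤ 11.75 :=
    exp_le (by norm_num) (by norm_num) (by norm_num [sum_range_succ, Nat.factorial])
  have e5 : (11.75 : ℝ) ≤ Real.exp 2.4638533 :=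
    le_exp (by norm_num) (by norm_num [sum_range_succ, Nat.factorial])
  rw [show Fintype.card ι - k = m by omega] at c0
  generalize Fintype.card ι = n at *
  have hm' : (n : ℝ) = k + m := by exact_mod_cast hm
  have hk0 : (0 : ℝ) ≤ k := Nat.cast_nonneg _
  have hm0 : (0 : ℝ) ≤ m := Nat.cast_nonneg _
  set X := Real.exp (0.2134697 * n + 2 * (2.6759619 - 0.2134697) * k -
    (2 * 2.6759619 - 3.9790039 - 0.2134697) * (thr 0.08 n k a (a + b) - 1)) with hX
  set Y : ℝ := 11.75 ^ a * 11.75⁻¹ ^ b with hY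
  set W : ℝ := 0.38 ^ (a + b) with hW
  have Y0 : 0 < Y := by positivity
  have W0 : 0 < W := by positivity
  have y1 : Y ≤ Real.exp (a * 2.4638533 - b * 2.4638532) := by
    rw [sub_eq_add_neg, Real.exp_add, ← mul_neg, Real.exp_nat_mul, Real.exp_nat_mul, Real.exp_neg,
      hY]
    gcongr
  have y2 : Real.exp (a * 2.4638532 - b * 2.4638533) ≤ Y := by
    rw [sub_eq_add_neg, Real.exp_add, ← mul_neg, Real.exp_nat_mul, Real.exp_nat_mul, Real.exp_neg,
      hY]
    gcongr
  have y3 : (n.choose (a + b) : ℝ) * W ≤ Real.exp (n * 0.3220835) := by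
    rw [Real.exp_nat_mul]
    refine le_trans ?_ (pow_le_pow_left₀ (by norm_num) e1 n)
    rcases le_or_gt (a + b) n with h | h
    · rw [add_comm (1 : ℝ), add_pow]
      refine le_trans (le_of_eq ?_) (single_le_sum
        (f := fun j => (0.38 : ℝ) ^ j * 1 ^ (n - j) * n.choose j) (fun j _ => by positivity)
        (mem_range.2 (Nat.lt_succ_of_le h)))
      rw [hW]; ring
    · rw [Nat.choose_eq_zero_of_lt h, Nat.cast_zero, zero_mul]; positivity
  have y4 : Real.exp (k * 1.6983641 + m * 0.0318284) ≤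
      (n + 1) ^ 2 * ((k.choose a * m.choose b) * (W * Y)) := by
    rw [Real.exp_add, Real.exp_nat_mul, Real.exp_nat_mul]
    calc _ ≤ ((k + 1) * (k.choose a * (0.38 * 11.75) ^ a)) *
          ((m + 1) * (m.choose b * (0.38 * 11.75⁻¹) ^ b) : ℝ) :=
          mul_le_mul ((pow_le_pow_left₀ (Real.exp_pos _).le e2 k).trans a1)
            ((pow_le_pow_left₀ (Real.exp_pos _).le e3 m).trans b1) (by positivity) (by positivity)
      _ = ((k + 1) * (m + 1)) * ((k.choose a * m.choose b) * (W * Y)) := by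
          rw [hW, hY, mul_pow, mul_pow, pow_add]; ring
      _ ≤ _ := mul_le_mul_of_nonneg_right (by nlinarith) (by positivity)
  have y5 : (n.choose (a + b) : ℝ) * W * Y ≤
      Real.exp (0.34578 * n + 20) * Real.exp (k * 1.6983641 + m * 0.0318284) := by
    refine (mul_le_mul y3 y1 Y0.le (Real.exp_pos _).le).trans ?_
    rw [← Real.exp_add, ← Real.exp_add]
    refine Real.exp_le_exp.2 ?_
    norm_num at a2 a3 b2 b3 h ⊢
    linarith
  have y6 : X / Y ≤ Real.exp (0.34578 * n + 20) * Real.exp (k * 1.6983641 + m * 0.0318284) := by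
    refine (div_le_div_of_nonneg_left (Real.exp_pos _).le (Real.exp_pos _) y2).trans ?_
    rw [← Real.exp_sub, ← Real.exp_add]
    refine Real.exp_le_exp.2 ?_
    unfold thr
    norm_num at a2 a3 b2 b3 h ⊢
    linarith
  refine le_of_mul_le_mul_right ?_ (Real.exp_pos (k * 1.6983641 + m * 0.0318284))
  calc _ ≤ (n + 1) ^ 2 * (F.card * (k.choose a * m.choose b) * (W * Y) : ℝ) :=
        (mul_le_mul_of_nonneg_left y4 (Nat.cast_nonneg _)).trans (le_of_eq (by ring))
    _ ≤ (n + 1) ^ 2 * (((n + 1) * n.choose (a + b) + X / (W * Y ^ 2)) * (W * Y) : ℝ) := by gcongr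
    _ = (n + 1) ^ 2 * ((n + 1) * (n.choose (a + b) * W * Y) + 1 * (X / Y) : ℝ) := by
        field_simp
    _ ≤ (n + 1) ^ 2 * ((n + 1) * (Real.exp (0.34578 * n + 20) *
          Real.exp (k * 1.6983641 + m * 0.0318284)) + (n + 1) * (Real.exp (0.34578 * n + 20) *
          Real.exp (k * 1.6983641 + m * 0.0318284)) : ℝ) := by
        gcongr
        linarith
    _ = _ := by ring

lemma layer {F : Finset (Finset ι)} (hF : UF F) {k : ℕ} (hk : ∀ A ∈ F, A.card = k) :
    (F.card : ℝ) ≤ 2 * ((Fintype.card ι + 1) ^ 3 * Real.exp (0.34578 * Fintype.card ι + 20)) := by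
  rcases le_total (k : ℝ) (0.3132 * Fintype.card ι) with h | h
  · exact light_num hF hk h
  have h1 := heavy hF hk (t := 0.6868) (by norm_num) (by norm_num) (by norm_num)
    (by norm_num at h ⊢; exact h)
  generalize Fintype.card ι = n at *
  have hn : (0 : ℝ) ≤ n := Nat.cast_nonneg _
  have e1 : (2 : ℝ) ^ n ≤ Real.exp (n * 0.6931472) := by
    rw [Real.exp_nat_mul]
    exact pow_le_pow_left₀ (by norm_num)
      (le_exp (by norm_num) (by norm_num [sum_range_succ, Nat.factorial])) n
  have e2 : (F.card : ℝ) ^ 2 ≤ (2 * Real.exp (0.34578 * n + 20)) ^ 2 := by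
    rw [mul_pow, ← Real.exp_nat_mul]
    refine h1.trans (mul_le_mul (by norm_num) ((mul_le_mul_of_nonneg_right e1
      (Real.exp_pos _).le).trans ?_) (by positivity) (by norm_num))
    rw [← Real.exp_add]
    refine Real.exp_le_exp.2 ?_
    norm_num
    linarith
  refine (abs_le_of_sq_le_sq' e2 (by positivity)).2.trans ?_
  exact mul_le_mul_of_nonneg_left (le_mul_of_one_le_left (Real.exp_pos _).le
    (one_le_pow₀ (by linarith))) zero_le_two

lemma indexed {m : ℕ} (A : Fin m → Finset ι) (hA : ∀ i j k l : Fin m, i < j → k < l →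
    A i ∪ A j = A k ∪ A l → i = k ∧ j = l) :
    (m : ℝ) ≤ 2 * ((Fintype.card ι + 1) ^ 4 * Real.exp (0.34578 * Fintype.card ι + 20)) := by
  have hn : (0 : ℝ) ≤ Fintype.card ι := Nat.cast_nonneg _
  have hs : ∀ i j k l : Fin m, i ≠ j → k ≠ l → A i ∪ A j = A k ∪ A l →
      (i = k ∧ j = l) ∨ (i = l ∧ j = k) := fun i j k l h1 h2 h => by
    rcases h1.lt_or_gt with a | a <;> rcases h2.lt_or_gt with b | b
    · exact .inl (hA _ _ _ _ a b h)
    · exact .inr (hA _ _ _ _ a b (h.trans (union_comm _ _)))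
    · exact .inr (hA _ _ _ _ a b ((union_comm _ _).trans h)).symm
    · exact .inl (hA _ _ _ _ a b ((union_comm _ _).trans (h.trans (union_comm _ _)))).symm
  rcases le_or_gt m 2 with h2 | h2
  · refine le_trans (by exact_mod_cast h2) (le_mul_of_one_le_right zero_le_two ?_)
    exact one_le_mul_of_one_le_of_one_le (one_le_pow₀ (by linarith))
      (Real.one_le_exp (by positivity))
  have inj : Function.Injective A := fun i j h => by
    by_contra hne
    obtain ⟨k, hk⟩ : ∃ k : Fin m, k ∉ ({i, j} : Finset (Fin m)) := by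
      by_contra hc
      have := (card_le_card (show univ ⊆ ({i, j} : Finset (Fin m)) from
        fun k _ => not_not.1 (not_exists.1 hc k))).trans card_le_two
      rw [card_univ, Fintype.card_fin] at this
      omega
    simp only [mem_insert, mem_singleton, not_or] at hk
    rcases hs i k j k (Ne.symm hk.1) (Ne.symm hk.2) (by rw [h]) with e | e
    · exact hne e.1
    · exact hk.2 e.2
  have h1 : (m : ℝ) = ∑ k ∈ range (Fintype.card ι + 1),
      (((univ.image A).filter fun B => B.card = k).card : ℝ) := by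
    rw [← Nat.cast_sum, ← card_eq_sum_card_fiberwise fun B _ =>
      mem_coe.2 (mem_range.2 (Nat.lt_succ_of_le (card_le_univ B))), card_image_of_injective _ inj,
      card_univ, Fintype.card_fin]
  rw [h1]
  refine (sum_le_card_nsmul _ _ _ fun k _ => layer (k := k) ?_ fun B hB => (mem_filter.1 hB).2).trans
    (le_of_eq ?_)
  · intro B1 m1 B2 m2 B3 m3 B4 m4 h
    simp only [mem_filter, mem_image, mem_univ, true_and] at m1 m2 m3 m4
    obtain ⟨⟨i, rfl⟩, c1⟩ := m1
    obtain ⟨⟨j, rfl⟩, c2⟩ := m2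
    obtain ⟨⟨p, rfl⟩, c3⟩ := m3
    obtain ⟨⟨q, rfl⟩, c4⟩ := m4
    by_cases e1 : i = j
    · rw [← e1, union_self] at h
      rw [← e1]
      exact .inl ⟨(eq_of_subset_of_card_le (h ▸ subset_union_left) (by omega)).symm,
        (eq_of_subset_of_card_le (h ▸ subset_union_right) (by omega)).symm⟩
    by_cases e2 : p = q
    · rw [← e2, union_self] at h
      rw [← e2]
      exact .inl ⟨eq_of_subset_of_card_le (h ▸ subset_union_left) (by omega),
        eq_of_subset_of_card_le (h ▸ subset_union_right) (by omega)⟩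
    rcases hs i j p q e1 e2 h with e | e
    · exact .inl ⟨by rw [e.1], by rw [e.2]⟩
    · exact .inr ⟨by rw [e.1], by rw [e.2]⟩
  · rw [card_range, nsmul_eq_mul]
    push_cast
    ring

theorem upper : ∀ᶠ n : ℕ in atTop, ∀ (m : ℕ) (A : Fin m → Finset (Fin n)),
    (∀ i j k l : Fin m, i < j → k < l → A i ∪ A j = A k ∪ A l → i = k ∧ j = l) →
    (m : ℝ) < 1.4131 ^ n := by
  have e1 : Real.exp 0.345785 ≤ 1.4131 :=
    exp_le (by norm_num) (by norm_num) (by norm_num [sum_range_succ, Nat.factorial])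
  have e2 : Tendsto (fun n : ℕ => ((n : ℝ) + 1) ^ 4 * Real.exp (-(0.000005 * ((n : ℝ) + 1))))
      atTop (nhds 0) := by
    have h1 : Tendsto (fun n : ℕ => 0.000005 * ((n : ℝ) + 1)) atTop atTop :=
      (tendsto_atTop_add_const_right _ _ tendsto_natCast_atTop_atTop).const_mul_atTop (by norm_num)
    have h2 := ((Real.tendsto_pow_mul_exp_neg_atTop_nhds_zero 4).comp h1).const_mul (200000 ^ 4)
    rw [mul_zero] at h2
    refine h2.congr fun n => ?_
    simp only [Function.comp]
    ring
  filter_upwards [e2.eventually (gt_mem_nhds (show 0 < Real.exp (-21) / 2 by positivity))]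
    with n hn m A hA
  have h1 := indexed A hA
  rw [Fintype.card_fin] at h1
  refine (h1.trans_lt ?_).trans_le (pow_le_pow_left₀ (Real.exp_pos _).le e1 n)
  rw [← Real.exp_nat_mul, show (0.34578 * n + 20 : ℝ) =
    -(0.000005 * (n + 1)) + (n * 0.345785 + 20.000005) by ring, Real.exp_add, ← mul_assoc,
    ← mul_assoc]
  calc _ < Real.exp (-21) * Real.exp (n * 0.345785 + 20.000005) :=
        mul_lt_mul_of_pos_right (by linarith) (Real.exp_pos _)
    _ ≤ _ := by rw [← Real.exp_add]; exact Real.exp_le_exp.2 (by linarith)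

end Pool.Agent.Lib.UF43
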