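import Mathlib

/-! Upper bounds for union-free families: the two packing inequalities. -/

open Finset

namespace Pool.Agent.Lib.UF43

variable {ι : Type} [Fintype ι] [DecidableEq ι]

/-- a union determines the pair -/
def UF (F : Finset (Finset ι)) : Prop :=
  ∀ A ∈ F, ∀ B ∈ F, ∀ C ∈ F, ∀ D ∈ F, A ∪ B = C ∪ D → (A = C ∧ B = D) ∨ (A = D ∧ B = C)

/-- indicator -/
def e (A : Finset ι) (i : ι) : ℝ := if i ∈ A then 1 else 0

lemma sum_e (A : Finset ι) : ∑ i, e A i = A.card := by simp [e]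

lemma sum_ee (A B : Finset ι) : ∑ i, e A i * e B i = (A ∩ B).card := by
  rw [← sum_e]
  exact sum_congr rfl fun i _ => by by_cases h : i ∈ A <;> by_cases h' : i ∈ B <;> simp [e, h, h']

/-- the union bound with coordinate weights -/
lemma union_bound {F : Finset (Finset ι)} (hF : UF F) (l : ι → ℝ) :
    ∑ x ∈ F ×ˢ F, Real.exp (∑ i, if i ∈ x.1 ∪ x.2 then l i else -l i) ≤
      2 * (2 ^ Fintype.card ι * Real.exp (∑ i, l i ^ 2 / 2)) := by
  let φ : Finset ι → ℝ := fun U => Real.exp (∑ i, if i ∈ U then l i else -l i)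
  have h1 : ∑ x ∈ F ×ˢ F, φ (x.1 ∪ x.2) ≤ ∑ U : Finset ι, 2 * φ U := by
    rw [← sum_fiberwise_of_maps_to (t := univ) (g := fun x => x.1 ∪ x.2) fun _ _ => mem_univ _]
    refine sum_le_sum fun U _ => ?_
    rw [sum_congr rfl (g := fun _ => φ U) fun x hx => by rw [(mem_filter.1 hx).2], sum_const,
      nsmul_eq_mul]
    refine mul_le_mul_of_nonneg_right ?_ (Real.exp_pos _).le
    rcases ((F ×ˢ F).filter fun x => x.1 ∪ x.2 = U).eq_empty_or_nonempty with h | ⟨y, hy⟩
    · simp [h]
    · have : ((F ×ˢ F).filter fun x => x.1 ∪ x.2 = U) ⊆ {y, y.swap} := fun x hx => by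
        simp only [mem_filter, mem_product] at hx hy
        rcases hF _ hx.1.1 _ hx.1.2 _ hy.1.1 _ hy.1.2 (hx.2.trans hy.2.symm) with h | h
        · exact mem_insert.2 (.inl (Prod.ext h.1 h.2))
        · exact mem_insert.2 (.inr (mem_singleton.2 (Prod.ext h.1 h.2)))
      exact_mod_cast (card_le_card this).trans card_le_two
  refine h1.trans ?_
  rw [← mul_sum]
  refine mul_le_mul_of_nonneg_left ?_ zero_le_two
  have h2 : ∑ U : Finset ι, φ U = ∏ i, (Real.exp (l i) + Real.exp (-l i)) := by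
    rw [prod_add, powerset_univ]
    refine sum_congr rfl fun U _ => ?_
    simp only [φ]
    rw [sum_ite, Real.exp_add, Real.exp_sum, Real.exp_sum, filter_mem_eq_inter, univ_inter]
    congr 2
    ext i
    simp
  rw [h2, Real.exp_sum, ← card_univ, ← prod_const, ← prod_mul_distrib]
  refine prod_le_prod (fun i _ => by positivity) fun i _ => ?_
  have := Real.cosh_le_exp_half_sq (l i)
  rw [Real.cosh_eq] at this
  linarith

/-- the entropy bound for heavy families -/
lemma heavy {F : Finset (Finset ι)} (hF : UF F) {k : ℕ} (hk : ∀ A ∈ F, A.card = k) {t : ℝ}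
    (ht : 0 ≤ t) (h1 : 1 ≤ 3 * t ^ 2) (h2 : 2 * t ^ 2 ≤ 1) (h3 : (1 - t) * Fintype.card ι ≤ k) :
    (F.card : ℝ) ^ 2 ≤
      2 * (2 ^ Fintype.card ι * Real.exp (-((1 - 2 * t ^ 2) ^ 2 / 2 * Fintype.card ι))) := by
  rcases F.eq_empty_or_nonempty with rfl | hne
  · simp; positivity
  have hM : (0 : ℝ) < F.card := by exact_mod_cast hne.card_pos
  let y : ι → ℝ := fun i => (∑ A ∈ F, (1 - e A i)) / F.card
  let l : ι → ℝ := fun i => 1 - 2 * y i ^ 2
  have hy : ∀ i, ∑ A ∈ F, (1 - e A i) = F.card * y i := fun i => by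
    simp only [y]; field_simp
  have a1 : ∑ x ∈ F ×ˢ F, (∑ i, if i ∈ x.1 ∪ x.2 then l i else -l i) =
      (F.card : ℝ) ^ 2 * ∑ i, l i ^ 2 := by
    rw [sum_comm, mul_sum]
    refine sum_congr rfl fun i _ => ?_
    have : ∀ x : Finset ι × Finset ι, (if i ∈ x.1 ∪ x.2 then l i else -l i) =
        l i - 2 * l i * ((1 - e x.1 i) * (1 - e x.2 i)) := fun x => by
      by_cases h : i ∈ x.1 <;> by_cases h' : i ∈ x.2 <;> simp [e, h, h']
      ring
    simp only [this]
    rw [sum_sub_distrib, ← mul_sum, sum_product' (f := fun A B => (1 - e A i) * (1 - e B i)),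
      ← sum_mul_sum, hy, sum_const, card_product, nsmul_eq_mul]
    simp only [l]
    push_cast
    ring
  have a2 : (F.card : ℝ) ^ 2 * Real.exp (∑ i, l i ^ 2) ≤
      ∑ x ∈ F ×ˢ F, Real.exp (∑ i, if i ∈ x.1 ∪ x.2 then l i else -l i) := by
    calc _ = ∑ x ∈ F ×ˢ F, Real.exp (∑ i, l i ^ 2) *
          ((∑ i, if i ∈ x.1 ∪ x.2 then l i else -l i) - ∑ i, l i ^ 2 + 1) := by
          rw [← mul_sum, sum_add_distrib, sum_sub_distrib, a1]
          simp only [sum_const, card_product, nsmul_eq_mul]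
          push_cast
          ring
      _ ≤ _ := sum_le_sum fun x _ => by
          refine (mul_le_mul_of_nonneg_left (Real.add_one_le_exp _) (Real.exp_pos _).le).trans ?_
          rw [← Real.exp_add, add_sub_cancel]
  have a3 : ∑ i, y i = Fintype.card ι - k := by
    apply mul_left_cancel₀ hM.ne'
    rw [mul_sum]
    simp only [← hy]
    rw [sum_comm, sum_congr rfl (g := fun _ => (Fintype.card ι : ℝ) - k) fun A hA => by
      rw [sum_sub_distrib, sum_e, hk A hA]; simp]
    simp [mul_sub]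
  have a4 : (1 - 2 * t ^ 2) ^ 2 / 2 * Fintype.card ι ≤ ∑ i, l i ^ 2 / 2 := by
    have b1 : ∀ i, (1 - 2 * t ^ 2) ^ 2 / 2 - 4 * t * (1 - 2 * t ^ 2) * (y i - t) ≤ l i ^ 2 / 2 :=
      fun i => by
      have b0 : 0 ≤ y i := div_nonneg (sum_nonneg fun A _ => by
        unfold e; split_ifs <;> norm_num) hM.le
      have b2 : 0 ≤ (y i - t) ^ 2 * (2 * y i ^ 2 + 4 * t * y i + (6 * t ^ 2 - 2)) :=
        mul_nonneg (sq_nonneg _) (by nlinarith [mul_nonneg ht b0])
      simp only [l]
      nlinarith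
    have b3 := sum_le_sum fun i (_ : i ∈ (univ : Finset ι)) => b1 i
    rw [sum_sub_distrib, ← mul_sum, sum_sub_distrib, a3] at b3
    simp only [sum_const, card_univ, nsmul_eq_mul] at b3
    have b4 : 0 ≤ 4 * t * (1 - 2 * t ^ 2) * (k - (1 - t) * Fintype.card ι) :=
      mul_nonneg (mul_nonneg (by linarith) (by linarith)) (by linarith)
    nlinarith
  have a5 := a2.trans (union_bound hF l)
  have a6 : Real.exp (∑ i, l i ^ 2 / 2) ≤
      Real.exp (-((1 - 2 * t ^ 2) ^ 2 / 2 * Fintype.card ι)) * Real.exp (∑ i, l i ^ 2) := by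
    rw [← Real.exp_add]
    refine Real.exp_le_exp.2 ?_
    rw [← sum_div] at a4 ⊢
    linarith
  refine le_of_mul_le_mul_right (a5.trans ?_) (Real.exp_pos (∑ i, l i ^ 2))
  rw [mul_assoc, mul_assoc]
  gcongr

/-- the measure of the subcube of an ordered pair, one coordinate -/
noncomputable def kap (z : ℝ) (A C : Finset ι) (i : ι) : ℝ :=
  if i ∈ A then (if i ∈ C then 1 else (1 - z) / 2) else (if i ∈ C then (1 - z) / 2 else z)

/-- the subcubes of distinct ordered pairs are disjoint -/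
lemma packing {F : Finset (Finset ι)} (hF : UF F) {z : ℝ} (h0 : 0 ≤ z) (h1 : z ≤ 1) :
    ∑ x ∈ F.offDiag, ∏ i, kap z x.1 x.2 i ≤ 1 := by
  let m : Fin 3 → ℝ := ![z, (1 - z) / 2, (1 - z) / 2]
  have hm : ∀ j, 0 ≤ m j := fun j => by fin_cases j <;> simp [m] <;> linarith
  let c : Finset ι × Finset ι → ι → Fin 3 → Prop := fun x i j =>
    (j = 0 → (i ∈ x.1 ↔ i ∈ x.2)) ∧ (j = 1 → i ∈ x.1) ∧ (j = 2 → i ∈ x.2)
  have a1 : ∀ x : Finset ι × Finset ι, ∏ i, kap z x.1 x.2 i =
      ∑ w : ι → Fin 3, if ∀ i, c x i (w i) then ∏ i, m (w i) else 0 := fun x => by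
    have : ∀ i, kap z x.1 x.2 i = ∑ j, if c x i j then m j else 0 := fun i => by
      by_cases h : i ∈ x.1 <;> by_cases h' : i ∈ x.2 <;>
        simp [kap, c, m, h, h', Fin.sum_univ_three]
      ring
    simp only [this]
    rw [prod_univ_sum, Fintype.piFinset_univ]
    exact sum_congr rfl fun w _ => by rw [prod_ite_zero]; simp
  simp only [a1]
  rw [sum_comm]
  calc _ ≤ ∑ w : ι → Fin 3, ∏ i, m (w i) := sum_le_sum fun w _ => by
        rw [← sum_filter, sum_const, nsmul_eq_mul]
        refine mul_le_of_le_one_left (prod_nonneg fun i _ => hm _) ?_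
        norm_cast
        refine card_le_one.2 fun x hx y hy => ?_
        simp only [mem_filter, mem_offDiag] at hx hy
        have : x.1 ∪ y.2 = x.2 ∪ y.1 := by
          ext i
          have b1 := hx.2 i
          have b2 := hy.2 i
          simp only [c] at b1 b2
          generalize w i = j at b1 b2
          fin_cases j <;> simp at b1 b2 <;> simp [b1, b2]
        rcases hF _ hx.1.1 _ hy.1.2.1 _ hx.1.2.1 _ hy.1.1 this with h | h
        · exact absurd h.1 hx.1.2.2
        · exact Prod.ext h.1 h.2.symm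
    _ = 1 := by
        rw [← Fintype.piFinset_univ, ← prod_univ_sum (fun _ => univ) fun _ j => m j]
        refine prod_eq_one fun i _ => ?_
        simp [m, Fin.sum_univ_three]
        ring

end Pool.Agent.Lib.UF43
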