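import Pool.Agent.Lib.UF43.A

/-! Close pairs in balls, and the bound for light families. -/

open Finset

namespace Pool.Agent.Lib.UF43

variable {ι : Type} [Fintype ι] [DecidableEq ι]

/-- the threshold for the size of an intersection -/
def thr (θ : ℝ) (n k a t : ℕ) : ℝ :=
  2 * ((1 - θ) * a + θ * (k - a)) - (1 - θ) ^ 2 * t - θ ^ 2 * (n - t)

lemma plotkin {θ : ℝ} (h0 : 0 ≤ θ) (h1 : θ ≤ 1) {k a : ℕ} (T : Finset ι) {I : Finset (Finset ι)}
    (hI : ∀ A ∈ I, A.card = k ∧ (A ∩ T).card = a)
    (hf : ∀ A ∈ I, ∀ C ∈ I, A ≠ C →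
      ((A ∩ C).card : ℝ) < thr θ (Fintype.card ι) k a T.card - 1) :
    I.card ≤ Fintype.card ι + 1 := by
  rcases I.eq_empty_or_nonempty with rfl | hne
  · simp
  let β : ι → ℝ := fun i => θ + (1 - 2 * θ) * e T i
  have a0 : ∀ A ∈ I, ∀ C ∈ I, ∑ i, (e A i - β i) * (e C i - β i) =
      (A ∩ C).card - thr θ (Fintype.card ι) k a T.card := fun A hA C hC => by
    have : ∀ i, (e A i - β i) * (e C i - β i) = e A i * e C i - θ * e A i - θ * e C i -
        (1 - 2 * θ) * (e A i * e T i) - (1 - 2 * θ) * (e C i * e T i) + θ ^ 2 +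
        (1 - 2 * θ) * e T i := fun i => by
      simp only [β, e]
      split_ifs <;> ring
    simp only [this, sum_add_distrib, sum_sub_distrib, ← mul_sum, sum_ee, sum_e, hI A hA, hI C hC,
      sum_const, card_univ, nsmul_eq_mul, thr]
    ring
  have a1 : 0 ≤ ∑ A ∈ I, ∑ C ∈ I, ∑ i, (e A i - β i) * (e C i - β i) := by
    simp only [sum_comm (s := I) (t := univ)]
    exact sum_nonneg fun i _ => by rw [← sum_mul_sum]; exact mul_self_nonneg _
  have a2 : ∀ A ∈ I, ∑ C ∈ I, ∑ i, (e A i - β i) * (e C i - β i) ≤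
      Fintype.card ι - (I.card - 1) := fun A hA => by
    rw [← add_sum_erase _ _ hA]
    have b1 : ∑ i, (e A i - β i) * (e A i - β i) ≤ ∑ _i : ι, (1 : ℝ) := sum_le_sum fun i _ => by
      simp only [β, e]
      split_ifs <;> nlinarith
    have b2 : ∑ C ∈ I.erase A, ∑ i, (e A i - β i) * (e C i - β i) ≤ ∑ _C ∈ I.erase A, (-1 : ℝ) :=
      sum_le_sum fun C hC => by
        rw [a0 A hA C (mem_of_mem_erase hC)]
        linarith [hf A hA C (mem_of_mem_erase hC) (ne_of_mem_erase hC).symm]
    simp only [sum_const, card_univ, nsmul_eq_mul, card_erase_of_mem hA,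
      Nat.cast_pred (card_pos.2 hne)] at b1 b2
    linarith
  have a3 := a1.trans (sum_le_sum a2)
  rw [sum_const, nsmul_eq_mul] at a3
  have hM : (0 : ℝ) < I.card := by exact_mod_cast hne.card_pos
  have := nonneg_of_mul_nonneg_right a3 hM
  exact_mod_cast (show (I.card : ℝ) ≤ Fintype.card ι + 1 by linarith)

/-- close pairs -/
noncomputable def cl (F : Finset (Finset ι)) (c : ℝ) : Finset (Finset ι × Finset ι) :=
  F.offDiag.filter fun x => c ≤ ((x.1 ∩ x.2).card : ℝ)

lemma ball_le {θ : ℝ} (h0 : 0 ≤ θ) (h1 : θ ≤ 1) {k a : ℕ} (T : Finset ι) {F : Finset (Finset ι)}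
    (hk : ∀ A ∈ F, A.card = k) :
    (F.filter fun A => (A ∩ T).card = a).card ≤ Fintype.card ι + 1 +
      ((cl F (thr θ (Fintype.card ι) k a T.card - 1)).filter
        fun x => (x.1 ∩ T).card = a ∧ (x.2 ∩ T).card = a).card := by
  set S := (cl F (thr θ (Fintype.card ι) k a T.card - 1)).filter
    fun x => (x.1 ∩ T).card = a ∧ (x.2 ∩ T).card = a with hS
  refine (card_le_card_sdiff_add_card (t := S.image Prod.fst)).trans
    (add_le_add (plotkin (k := k) (a := a) h0 h1 T (fun A hA => ?_) fun A hA C hC hne => ?_)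
      card_image_le)
  · have := mem_filter.1 (mem_sdiff.1 hA).1
    exact ⟨hk A this.1, this.2⟩
  · have b1 := mem_filter.1 (mem_sdiff.1 hA).1
    have b2 := mem_filter.1 (mem_sdiff.1 hC).1
    by_contra h
    exact (mem_sdiff.1 hA).2 (mem_image.2 ⟨(A, C), mem_filter.2 ⟨mem_filter.2
      ⟨mem_offDiag.2 ⟨b1.1, b2.1, hne⟩, not_lt.1 h⟩, b1.2, b2.2⟩, rfl⟩)

lemma centres (A : Finset ι) (a b : ℕ) : A.card.choose a * Aᶜ.card.choose b ≤
    ((powersetCard (a + b) univ).filter fun T => (A ∩ T).card = a).card := by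
  rw [← card_powersetCard, ← card_powersetCard, ← card_product]
  have key : ∀ x ∈ powersetCard a A ×ˢ powersetCard b Aᶜ,
      A ∩ (x.1 ∪ x.2) = x.1 ∧ Aᶜ ∩ (x.1 ∪ x.2) = x.2 := fun x hx => by
    simp only [mem_product, mem_powersetCard] at hx
    constructor <;> ext i <;> have b1 := @hx.1.1 i <;> have b2 := @hx.2.1 i <;>
      simp only [mem_inter, mem_union, mem_compl] at * <;> tauto
  refine card_le_card_of_injOn (fun x => x.1 ∪ x.2) (fun x hx => ?_) fun x hx y hy h => ?_
  · have b := key x hx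
    simp only [coe_product, Set.mem_prod, mem_coe, mem_powersetCard] at hx
    simp only [coe_filter, Set.mem_setOf_eq, mem_powersetCard, subset_univ, true_and, b.1, hx.1.2,
      and_true]
    rw [card_union_of_disjoint (disjoint_compl_right.mono hx.1.1 hx.2.1), hx.1.2, hx.2.2]
  · dsimp only at h
    exact Prod.ext (by rw [← (key x hx).1, h, (key y hy).1]) (by rw [← (key x hx).2, h, (key y hy).2])

/-- likelihood ratio -/
noncomputable def lr (L : ℝ) (A : Finset ι) (i : ι) : ℝ := if i ∈ A then L else L⁻¹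

lemma prod_lr (L : ℝ) {A T : Finset ι} {a b : ℕ} (hT : T.card = a + b) (ha : (A ∩ T).card = a) :
    ∏ i ∈ T, lr L A i = L ^ a * L⁻¹ ^ b := by
  unfold lr
  rw [prod_ite, prod_const, prod_const, filter_mem_eq_inter, inter_comm, ha, filter_notMem_eq_sdiff]
  have := card_sdiff_add_card_inter T A
  rw [inter_comm, ha, hT] at this
  rw [show (T \ A).card = b by omega]

/-- the bound for light families -/
lemma light {F : Finset (Finset ι)} (hF : UF F) {k : ℕ} (hk : ∀ A ∈ F, A.card = k)
    {θ z w L p q r : ℝ} (h0 : 0 ≤ θ) (h1 : θ ≤ 1) (z0 : 0 ≤ z) (z1 : z ≤ 1) (hw : 0 < w)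
    (hL : 0 < L) (hp : 1 + w * L * L ≤ Real.exp p) (hq : 1 + w ≤ (1 - z) / 2 * Real.exp q)
    (hr : 1 + w * L⁻¹ * L⁻¹ ≤ z * Real.exp r) (hs : p + r ≤ 2 * q) (a b : ℕ) :
    (F.card : ℝ) * (k.choose a * (Fintype.card ι - k).choose b) ≤
      (Fintype.card ι + 1) * (Fintype.card ι).choose (a + b) +
      Real.exp (r * Fintype.card ι + 2 * (q - r) * k -
        (2 * q - p - r) * (thr θ (Fintype.card ι) k a (a + b) - 1)) /
      (w ^ (a + b) * (L ^ a * L⁻¹ ^ b) ^ 2) := by
  set c := thr θ (Fintype.card ι) k a (a + b) - 1 with hc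
  set X := Real.exp (r * Fintype.card ι + 2 * (q - r) * k - (2 * q - p - r) * c) with hX
  set Ts : Finset (Finset ι) := powersetCard (a + b) univ with hTs
  have a1 : F.card * (k.choose a * (Fintype.card ι - k).choose b) ≤
      ∑ T ∈ Ts, (F.filter fun A => (A ∩ T).card = a).card := by
    simp only [card_filter]
    rw [sum_comm, ← smul_eq_mul]
    refine card_nsmul_le_sum _ _ _ fun A hA => ?_
    rw [← card_filter, ← hk A hA, ← card_compl]
    exact centres A a b
  have a2 : ∑ T ∈ Ts, (F.filter fun A => (A ∩ T).card = a).card ≤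
      (Fintype.card ι + 1) * (Fintype.card ι).choose (a + b) + ∑ T ∈ Ts,
        ((cl F c).filter fun x => (x.1 ∩ T).card = a ∧ (x.2 ∩ T).card = a).card := by
    refine (sum_le_sum fun T hT => ball_le h0 h1 T hk).trans (le_of_eq ?_)
    rw [sum_add_distrib, sum_const, card_powersetCard, card_univ, smul_eq_mul, mul_comm]
    congr 1
    exact sum_congr rfl fun T hT => by rw [(mem_powersetCard.1 hT).2]
  have hl : ∀ (A : Finset ι) i, 0 < lr L A i := fun A i => by unfold lr; split_ifs <;> positivity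
  have a3 : ∀ x ∈ cl F c, ∑ T : Finset ι, ∏ i ∈ T, w * lr L x.1 i * lr L x.2 i ≤
      X * ∏ i, kap z x.1 x.2 i := fun x hx => by
    obtain ⟨b1, b2⟩ := mem_filter.1 hx
    rw [mem_offDiag] at b1
    rw [← powerset_univ, ← prod_one_add]
    have b3 : ∀ i, 1 + w * lr L x.1 i * lr L x.2 i ≤ Real.exp (r + (q - r) * e x.1 i +
        (q - r) * e x.2 i - (2 * q - p - r) * (e x.1 i * e x.2 i)) * kap z x.1 x.2 i := fun i => by
      simp only [lr, e, kap]
      split_ifs
      · rw [mul_one]; convert hp using 2; ring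
      · rw [mul_comm (Real.exp _), mul_inv_cancel_right₀ hL.ne']; convert hq using 3; ring
      · rw [mul_comm (Real.exp _), inv_mul_cancel_right₀ hL.ne']; convert hq using 3; ring
      · rw [mul_comm (Real.exp _)]; convert hr using 3; ring
    refine (prod_le_prod (fun i _ => by have := hl x.1 i; have := hl x.2 i; positivity)
      fun i _ => b3 i).trans ?_
    rw [prod_mul_distrib, ← Real.exp_sum]
    refine mul_le_mul_of_nonneg_right (Real.exp_le_exp.2 ?_) (prod_nonneg fun i _ => ?_)
    · simp only [sum_sub_distrib, sum_add_distrib, ← mul_sum, sum_ee, sum_e, hk _ b1.1,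
        hk _ b1.2.1, sum_const, card_univ, nsmul_eq_mul]
      nlinarith
    · unfold kap
      split_ifs <;> linarith
  have a4 : ((∑ T ∈ Ts, ((cl F c).filter
      fun x => (x.1 ∩ T).card = a ∧ (x.2 ∩ T).card = a).card : ℕ) : ℝ) *
      (w ^ (a + b) * (L ^ a * L⁻¹ ^ b) ^ 2) ≤ X := by
    calc _ = ∑ T ∈ Ts, ∑ x ∈ (cl F c).filter fun x => (x.1 ∩ T).card = a ∧ (x.2 ∩ T).card = a,
          ∏ i ∈ T, w * lr L x.1 i * lr L x.2 i := by
          rw [Nat.cast_sum, sum_mul]
          refine sum_congr rfl fun T hT => ?_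
          have hT' := (mem_powersetCard.1 hT).2
          rw [← nsmul_eq_mul, ← sum_const]
          refine sum_congr rfl fun x hx => ?_
          rw [prod_mul_distrib, prod_mul_distrib, prod_const, prod_lr L hT' (mem_filter.1 hx).2.1,
            prod_lr L hT' (mem_filter.1 hx).2.2, hT']
          ring
      _ ≤ ∑ T : Finset ι, ∑ x ∈ cl F c, ∏ i ∈ T, w * lr L x.1 i * lr L x.2 i := by
          have hp : ∀ (T : Finset ι) (x : Finset ι × Finset ι),
              0 ≤ ∏ i ∈ T, w * lr L x.1 i * lr L x.2 i := fun T x =>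
            prod_nonneg fun i _ => by have := hl x.1 i; have := hl x.2 i; positivity
          exact (sum_le_sum fun T _ => sum_le_sum_of_subset_of_nonneg (filter_subset _ _)
            fun x _ _ => hp T x).trans (sum_le_sum_of_subset_of_nonneg (subset_univ _)
              fun T _ _ => sum_nonneg fun x _ => hp T x)
      _ ≤ ∑ x ∈ cl F c, X * ∏ i, kap z x.1 x.2 i := by
          rw [sum_comm]; exact sum_le_sum a3
      _ ≤ X := by
          rw [← mul_sum]
          refine mul_le_of_le_one_right (Real.exp_pos _).le (le_trans ?_ (packing hF z0 z1))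
          refine sum_le_sum_of_subset_of_nonneg (filter_subset _ _) fun x _ _ =>
            prod_nonneg fun i _ => ?_
          unfold kap
          split_ifs <;> linarith
  rw [← le_div_iff₀ (by positivity)] at a4
  have a5 := (Nat.cast_le (α := ℝ)).2 (a1.trans a2)
  rw [Nat.cast_add] at a5
  refine le_trans (le_of_eq ?_) (a5.trans (add_le_add (le_of_eq ?_) a4)) <;> push_cast <;> ring

/-- the largest term of a binomial sum -/
lemma mode (k : ℕ) {u : ℝ} (hu : 0 < u) : ∃ a : ℕ, (1 + u) ^ k ≤ (k + 1) * (k.choose a * u ^ a) ∧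
    k * u - 1 ≤ a * (1 + u) ∧ a * (1 + u) ≤ (k + 1) * u := by
  obtain ⟨a, ha, hm⟩ := exists_max_image (range (k + 1)) (fun j => (k.choose j : ℝ) * u ^ j)
    ⟨0, by simp⟩
  have ha' : a ≤ k := Nat.lt_succ_iff.1 (mem_range.1 ha)
  have hc : (0 : ℝ) < k.choose a := by exact_mod_cast Nat.choose_pos ha'
  refine ⟨a, ?_, ?_, ?_⟩
  · rw [add_comm 1 u, add_pow]
    refine (sum_le_card_nsmul _ _ _ fun j hj => le_trans (le_of_eq (by ring)) (hm j hj)).trans ?_
    simp
  · rcases ha'.eq_or_lt with rfl | h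
    · nlinarith [Nat.cast_nonneg (α := ℝ) a]
    · have b1 := hm (a + 1) (mem_range.2 (by omega))
      have b2 : (k.choose (a + 1) : ℝ) * (a + 1) = k.choose a * (k - a) := by
        exact_mod_cast (show ((k.choose (a + 1) * (a + 1) : ℕ) : ℤ) = k.choose a * (k - a) by
          rw [Nat.choose_succ_right_eq]; push_cast [ha']; ring)
      rw [pow_succ] at b1
      have b3 : (k.choose (a + 1) : ℝ) * u ≤ k.choose a :=
        le_of_mul_le_mul_right (by linarith) (pow_pos hu a)
      have b4 : (k.choose a : ℝ) * ((k - a) * u) ≤ k.choose a * (a + 1) := by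
        nlinarith [Nat.cast_nonneg (α := ℝ) a]
      linarith [le_of_mul_le_mul_left b4 hc]
  · rcases a with _ | a
    · simp; positivity
    · have b1 := hm a (mem_range.2 (by omega))
      have b2 : (k.choose (a + 1) : ℝ) * (a + 1) = k.choose a * (k - a) := by
        exact_mod_cast (show ((k.choose (a + 1) * (a + 1) : ℕ) : ℤ) = k.choose a * (k - a) by
          rw [Nat.choose_succ_right_eq]; push_cast [show a ≤ k by omega]; ring)
      rw [pow_succ] at b1
      have b3 : (k.choose a : ℝ) ≤ k.choose (a + 1) * u :=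
        le_of_mul_le_mul_right (by linarith) (pow_pos hu a)
      have b5 : (0 : ℝ) ≤ k - a := sub_nonneg.2 (by exact_mod_cast (show a ≤ k by omega))
      have b4 : (k.choose (a + 1) : ℝ) * (a + 1) ≤ k.choose (a + 1) * ((k - a) * u) := by
        nlinarith
      have := le_of_mul_le_mul_left b4 hc
      push_cast
      linarith

end Pool.Agent.Lib.UF43
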